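import Mathlib
import Pool.Agent.Helper7.LPrimeTower
import Pool.Agent.Helper7.LPrimeUltra

/-- There are a chain `T` with more than two elements and a subgroup `L` of the group `T ≃o T` of
order automorphisms of `T` (product = composition) which is closed under pointwise maxima and
minima, is 2-transitive, all of whose members have bounded support, and in which every strictly
positive element is the join of two disjoint nonidentity members of `L`; that is, `L` has no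
l-prime `f > e`. -/
theorem Pool.Agent.Results.MP_31a5b6_al.NoLPrimes.result :
    ∃ (T : Type) (_ : LinearOrder T) (L : Subgroup (T ≃o T)),
      (∃ a b c : T, a < b ∧ b < c) ∧
      (∀ f ∈ L, ∀ g ∈ L, ∃ h ∈ L, ∀ t, h t = max (f t) (g t)) ∧
      (∀ f ∈ L, ∀ g ∈ L, ∃ h ∈ L, ∀ t, h t = min (f t) (g t)) ∧
      (∀ r₁ r₂ s₁ s₂ : T, r₁ < r₂ → s₁ < s₂ → ∃ f ∈ L, f r₁ = s₁ ∧ f r₂ = s₂) ∧
      (∀ f ∈ L, ∃ t₁ t₂ : T, (∀ s, s < t₁ → f s = s) ∧ (∀ s, t₂ < s → f s = s)) ∧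
      (∀ f ∈ L, (∀ t, t ≤ f t) → f ≠ 1 →
        ∃ f₁ ∈ L, ∃ f₂ ∈ L, f₁ ≠ 1 ∧ f₂ ≠ 1 ∧ (∀ t, min (f₁ t) (f₂ t) = t) ∧
          (∀ t, max (f₁ t) (f₂ t) = f t)) :=
  Pool.Agent.Helper7.LPrime.tower.main
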